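import Mathlib
import Pool.Agent.Lib.MP_4eb8d9_nt.DisInst

/-!
# From a set of nodes to an infinite family of violations

This is helper29's argument (`Dis.not_lw`), with the conclusion stated for all large `N`, for every
constant and for every `ε` below the threshold.
-/

set_option autoImplicit false

namespace Pool.Agent.Lib.MP_4eb8d9_nt.H6

open Filter Topology Finset
open Pool.Agent.Lib.MP_4eb8d9_nt.Dis

theorem viol (E Z : Finset ℤ) (hsymm : ∀ a ∈ E, -a ∈ E) (h0 : (0:ℤ) ∉ E) (hZE : Z ⊆ E)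
    (hZ : Z.card = 4) (hZg : ∀ a ∈ Z, ga E a = 0) (a1 : ℤ) (ha1 : a1 ∈ E) (hg1 : ga E a1 ≠ 0) :
    ∃ x y : ℤ → ℤ, ∀ ε C : ℝ, 0 ≤ ε → ε * ((E.card : ℝ) - 2) < 1 → 0 < C →
      ∀ᶠ N : ℕ in atTop, (∀ a ∈ E, x a + y a * (N:ℤ) ≠ 0) ∧
        (N:ℝ) / 2 ≤ |((x a1 + y a1 * (N:ℤ) : ℤ) : ℝ)| ∧
        (∏ a ∈ E, ((((N:ℤ) - a : ℤ) : ℝ) ^ (x a + y a * (N:ℤ)))) ≠ 1 ∧
        |(∏ a ∈ E, ((((N:ℤ) - a : ℤ) : ℝ) ^ (x a + y a * (N:ℤ)))) - 1| <
          C * |((x a1 + y a1 * (N:ℤ) : ℤ) : ℝ)| /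
            ((∏ a ∈ E, |((x a + y a * (N:ℤ) : ℤ) : ℝ)|) *
              ∏ a ∈ E, |(((N:ℤ) - a : ℤ) : ℝ)|) ^ (1 + ε) := by
  classical
  set m : ℕ := E.card with hm
  have hm4 : 4 ≤ m := by rw [hm, ← hZ]; exact Finset.card_le_card hZE
  have hmR : (4:ℝ) ≤ m := by exact_mod_cast hm4
  obtain ⟨x, y, c, hc, hxs, hys, hy0, hx0, hlim⟩ := family E (by omega) hsymm
  rw [← hm] at hlim
  refine ⟨x, y, ?_⟩
  intro ε C hε0 hεm hC
  set κ : ℝ := 1 + ∑ a ∈ E, (|((x a : ℤ) : ℝ)| + |((y a : ℤ) : ℝ)|) with hκ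
  have hκ1 : 1 ≤ κ := by
    rw [hκ]
    have : 0 ≤ ∑ a ∈ E, (|((x a : ℤ) : ℝ)| + |((y a : ℤ) : ℝ)|) :=
      Finset.sum_nonneg fun a _ => by positivity
    linarith
  have hκa : ∀ a ∈ E, |((x a : ℤ) : ℝ)| + |((y a : ℤ) : ℝ)| ≤ κ := by
    intro a ha
    have := Finset.single_le_sum (f := fun a => (|((x a : ℤ) : ℝ)| + |((y a : ℤ) : ℝ)|))
      (fun b _ => by positivity) ha
    rw [hκ]
    linarith
  set κ' : ℝ := κ ^ m * 2 ^ m with hκ'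
  have hκ'0 : 0 < κ' := by positivity
  set δ : ℝ := (2 * (m:ℝ) - 2) - (2 * (m:ℝ) - 4) * (1 + ε) with hδ
  have hδ0 : 0 < δ := by
    rw [hδ]
    nlinarith
  set A : ℕ := E.sup Int.natAbs with hA
  have hev1 : ∀ᶠ N : ℕ in atTop, 2 * A + 1 ≤ N := eventually_ge_atTop _
  have hev2 : ∀ᶠ N : ℕ in atTop, 2 * κ < (N:ℝ) :=
    tendsto_natCast_atTop_atTop.eventually_gt_atTop _
  have hev3 : ∀ᶠ N : ℕ in atTop, 8 * c * κ' ^ (1 + ε) / C < (N:ℝ) ^ δ :=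
    ((tendsto_rpow_atTop hδ0).comp tendsto_natCast_atTop_atTop).eventually_gt_atTop _
  have hev4 : ∀ᶠ N : ℕ in atTop, 2 * c < (N:ℝ) :=
    tendsto_natCast_atTop_atTop.eventually_gt_atTop _
  have hev5 := hlim.eventually (Ioo_mem_nhds (show c / 2 < c by linarith)
    (show c < 2 * c by linarith))
  filter_upwards [hev1, hev2, hev3, hev4, hev5] with N hN1 hN2 hN3 hN4 hN5
  have hNpos : 1 ≤ N := by omega
  have hN0 : (0:ℝ) < N := by exact_mod_cast hNpos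
  have hN1' : (1:ℝ) ≤ N := by exact_mod_cast hNpos
  have haA : ∀ a ∈ E, |(a:ℝ)| ≤ A := by
    intro a ha
    have h2 : a.natAbs ≤ A := Finset.le_sup (f := Int.natAbs) ha
    have h3 : ((a.natAbs : ℕ) : ℝ) ≤ A := by exact_mod_cast h2
    rw [Nat.cast_natAbs] at h3
    push_cast at h3
    exact h3
  have hAN : 2 * (A:ℝ) + 1 ≤ N := by exact_mod_cast hN1
  have hApos : (0:ℝ) ≤ A := Nat.cast_nonneg _
  have hfpos : ∀ a ∈ E, (0:ℝ) < (N:ℝ) - a ∧ (N:ℝ) - a ≤ 2 * N := by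
    intro a ha
    have := abs_le.1 (haA a ha)
    constructor <;> linarith [this.1, this.2]
  set f : ℤ → ℤ := fun a => (N:ℤ) - a with hf
  set g : ℤ → ℤ := fun a => x a + y a * (N:ℤ) with hg
  have hfR : ∀ a, ((f a : ℤ) : ℝ) = (N:ℝ) - a := by
    intro a; simp only [hf]; push_cast; ring
  have hgR : ∀ a, ((g a : ℤ) : ℝ) = (x a : ℝ) + (y a : ℝ) * N := by
    intro a; simp only [hg]; push_cast; ring
  have hf0 : ∀ a ∈ E, f a ≠ 0 := by
    intro a ha h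
    have h1 := hfR a
    rw [h, Int.cast_zero] at h1
    linarith [(hfpos a ha).1]
  have hlow : ∀ a ∈ E, y a ≠ 0 → (N:ℝ) / 2 ≤ |((g a : ℤ) : ℝ)| := by
    intro a ha hya
    rw [hgR]
    have h1 : (1:ℝ) ≤ |((y a : ℤ) : ℝ)| := by exact_mod_cast Int.one_le_abs hya
    have h2 : |((x a : ℤ) : ℝ)| ≤ κ := by
      have := hκa a ha
      linarith [abs_nonneg ((y a : ℤ) : ℝ)]
    have h3 : |(y a : ℝ) * N| ≤ |(x a : ℝ) + (y a : ℝ) * N| + |(x a : ℝ)| := by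
      calc |(y a : ℝ) * N| = |((x a : ℝ) + (y a : ℝ) * N) - (x a : ℝ)| := by congr 1; ring
        _ ≤ |(x a : ℝ) + (y a : ℝ) * N| + |(x a : ℝ)| := abs_sub _ _
    rw [abs_mul, abs_of_pos hN0] at h3
    nlinarith
  have hg0 : ∀ a ∈ E, g a ≠ 0 := by
    intro a ha h
    by_cases hya : y a = 0
    · have h2 : a ≠ 0 := by rintro rfl; exact h0 ha
      have := hx0 a ha hya h2
      simp only [hg, hya, zero_mul, add_zero] at h
      exact this h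
    · have h1 := hlow a ha hya
      rw [h, Int.cast_zero, abs_zero] at h1
      linarith
  -- the logarithm
  set L : ℝ := ∑ a ∈ E, ((x a : ℝ) + (y a : ℝ) * N) * Real.log (1 - a / N) with hL
  have hΛpos : 0 < ∏ a ∈ E, ((f a : ℝ) ^ (g a)) := by
    apply Finset.prod_pos
    intro a ha
    apply zpow_pos
    rw [hfR]
    exact (hfpos a ha).1
  have hsumg : ∑ a ∈ E, ((x a : ℝ) + (y a : ℝ) * N) = 0 := by
    rw [Finset.sum_add_distrib, ← Finset.sum_mul]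
    have h1 : ∑ a ∈ E, ((x a : ℤ) : ℝ) = 0 := by exact_mod_cast hxs
    have h2 : ∑ a ∈ E, ((y a : ℤ) : ℝ) = 0 := by exact_mod_cast hys
    rw [h1, h2]; ring
  have hlogΛ : ∏ a ∈ E, ((f a : ℝ) ^ (g a)) = Real.exp L := by
    rw [← Real.exp_log hΛpos]
    congr 1
    rw [Real.log_prod (fun a ha => by
      have : (0:ℝ) < (f a : ℝ) := by rw [hfR]; exact (hfpos a ha).1
      exact (zpow_pos this _).ne')]
    have h1 : ∑ a ∈ E, Real.log ((f a : ℝ) ^ (g a))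
        = ∑ a ∈ E, (((x a : ℝ) + (y a : ℝ) * N) * Real.log N
          + ((x a : ℝ) + (y a : ℝ) * N) * Real.log (1 - a / N)) := by
      apply Finset.sum_congr rfl
      intro a ha
      rw [Real.log_zpow, hgR, hfR, ← mul_add]
      congr 1
      have h2 : (N:ℝ) - a = N * (1 - a / N) := by field_simp
      have h3 : (0:ℝ) < 1 - a / N := by
        have := (hfpos a ha).1
        rw [h2] at this
        exact (pos_iff_pos_of_mul_pos this).1 hN0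
      rw [h2, Real.log_mul hN0.ne' h3.ne']
    rw [h1, Finset.sum_add_distrib, ← Finset.sum_mul, hsumg, zero_mul, zero_add]
  set T : ℕ := 2 * m - 3 with hT
  have hT1 : 1 ≤ T := by omega
  have hNT : (0:ℝ) < (N:ℝ) ^ T := by positivity
  have hLpos : 0 < L := by
    have h1 := hN5.1
    by_contra hle
    push Not at hle
    have : (N:ℝ) ^ T * L ≤ 0 := mul_nonpos_of_nonneg_of_nonpos hNT.le hle
    linarith
  have hLle : L ≤ 2 * c / (N:ℝ) ^ T := by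
    rw [le_div_iff₀ hNT]
    have := hN5.2
    linarith
  have hL1 : L ≤ 1 := by
    refine hLle.trans ?_
    rw [div_le_one hNT]
    calc 2 * c ≤ N := hN4.le
      _ = (N:ℝ) ^ 1 := (pow_one _).symm
      _ ≤ (N:ℝ) ^ T := pow_le_pow_right₀ hN1' hT1
  have hΛne : ∏ a ∈ E, ((f a : ℝ) ^ (g a)) ≠ 1 := by
    rw [hlogΛ]
    intro h1
    rw [Real.exp_eq_one_iff] at h1
    exact hLpos.ne' h1
  have hΛup : |∏ a ∈ E, ((f a : ℝ) ^ (g a)) - 1| ≤ 2 * L := by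
    rw [hlogΛ]
    have := Real.abs_exp_sub_one_le (x := L) (by rw [abs_of_pos hLpos]; exact hL1)
    rwa [abs_of_pos hLpos] at this
  -- upper bounds for the products
  have hya1 : y a1 ≠ 0 := fun h1 => hg1 ((hy0 a1 ha1).1 h1)
  have hga1 := hlow a1 ha1 hya1
  have hgprod : ∏ a ∈ E, |((g a : ℤ) : ℝ)| ≤ κ ^ m * (N:ℝ) ^ (m - 4) := by
    rw [← Finset.prod_sdiff hZE]
    have h1 : ∏ a ∈ E \ Z, |((g a : ℤ) : ℝ)| ≤ (κ * N) ^ (m - 4) := by
      have hcard : (E \ Z).card = m - 4 := by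
        rw [Finset.card_sdiff_of_subset hZE, hZ]
      rw [← hcard, ← Finset.prod_const]
      apply Finset.prod_le_prod (fun a _ => abs_nonneg _)
      intro a ha
      have haE := (Finset.mem_sdiff.1 ha).1
      rw [hgR]
      calc |(x a : ℝ) + (y a : ℝ) * N| ≤ |(x a : ℝ)| + |(y a : ℝ) * N| := abs_add_le _ _
        _ = |(x a : ℝ)| + |(y a : ℝ)| * N := by rw [abs_mul, abs_of_pos hN0]
        _ ≤ (|(x a : ℝ)| + |(y a : ℝ)|) * N := by nlinarith [abs_nonneg (x a : ℝ)]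
        _ ≤ κ * N := by
          apply mul_le_mul_of_nonneg_right (hκa a haE) hN0.le
    have h2 : ∏ a ∈ Z, |((g a : ℤ) : ℝ)| ≤ κ ^ 4 := by
      rw [← hZ, ← Finset.prod_const]
      apply Finset.prod_le_prod (fun a _ => abs_nonneg _)
      intro a ha
      have haE := hZE ha
      have hya : y a = 0 := (hy0 a haE).2 (hZg a ha)
      rw [hgR, hya, Int.cast_zero, zero_mul, add_zero]
      have := hκa a haE
      linarith [abs_nonneg ((y a : ℤ) : ℝ)]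
    calc (∏ a ∈ E \ Z, |((g a : ℤ) : ℝ)|) * ∏ a ∈ Z, |((g a : ℤ) : ℝ)|
        ≤ (κ * N) ^ (m - 4) * κ ^ 4 := by
          apply mul_le_mul h1 h2 (Finset.prod_nonneg fun a _ => abs_nonneg _) (by positivity)
      _ = κ ^ m * (N:ℝ) ^ (m - 4) := by
          have : m = (m - 4) + 4 := by omega
          rw [mul_pow]
          conv_rhs => rw [this, pow_add]
          simp only [Nat.add_sub_cancel]
          ring
  have hfprod : ∏ a ∈ E, |((f a : ℤ) : ℝ)| ≤ 2 ^ m * (N:ℝ) ^ m := by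
    rw [← mul_pow, hm, ← Finset.prod_const]
    apply Finset.prod_le_prod (fun a _ => abs_nonneg _)
    intro a ha
    rw [hfR, abs_of_pos (hfpos a ha).1]
    exact (hfpos a ha).2
  have hprod0 : 0 < (∏ a ∈ E, |((g a : ℤ) : ℝ)|) * ∏ a ∈ E, |((f a : ℤ) : ℝ)| := by
    apply mul_pos
    · apply Finset.prod_pos
      intro a ha
      rw [abs_pos]
      exact_mod_cast hg0 a ha
    · apply Finset.prod_pos
      intro a ha
      rw [abs_pos]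
      exact_mod_cast hf0 a ha
  have hX : (∏ a ∈ E, |((g a : ℤ) : ℝ)|) * ∏ a ∈ E, |((f a : ℤ) : ℝ)|
      ≤ κ' * (N:ℝ) ^ (2 * m - 4) := by
    calc (∏ a ∈ E, |((g a : ℤ) : ℝ)|) * ∏ a ∈ E, |((f a : ℤ) : ℝ)|
        ≤ (κ ^ m * (N:ℝ) ^ (m - 4)) * (2 ^ m * (N:ℝ) ^ m) := by
          apply mul_le_mul hgprod hfprod (Finset.prod_nonneg fun a _ => abs_nonneg _)
            (by positivity)
      _ = κ' * ((N:ℝ) ^ (m - 4) * (N:ℝ) ^ m) := by rw [hκ']; ring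
      _ = κ' * (N:ℝ) ^ (2 * m - 4) := by
          rw [← pow_add]; congr 2; omega
  have hcast1 : ((2 * m - 4 : ℕ) : ℝ) = 2 * m - 4 := by
    rw [Nat.cast_sub (by omega)]; push_cast; ring
  have hcast2 : ((T : ℕ) : ℝ) = 2 * m - 3 := by
    rw [hT, Nat.cast_sub (by omega)]; push_cast; ring
  have hXε : ((∏ a ∈ E, |((g a : ℤ) : ℝ)|) * ∏ a ∈ E, |((f a : ℤ) : ℝ)|) ^ (1 + ε)
      ≤ κ' ^ (1 + ε) * (N:ℝ) ^ ((2 * (m:ℝ) - 4) * (1 + ε)) := by
    calc ((∏ a ∈ E, |((g a : ℤ) : ℝ)|) * ∏ a ∈ E, |((f a : ℤ) : ℝ)|) ^ (1 + ε)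
        ≤ (κ' * (N:ℝ) ^ (2 * m - 4)) ^ (1 + ε) :=
          Real.rpow_le_rpow hprod0.le hX (by linarith)
      _ = κ' ^ (1 + ε) * ((N:ℝ) ^ (2 * m - 4)) ^ (1 + ε) :=
          Real.mul_rpow hκ'0.le (by positivity)
      _ = κ' ^ (1 + ε) * (N:ℝ) ^ ((2 * (m:ℝ) - 4) * (1 + ε)) := by
          rw [← Real.rpow_natCast (N:ℝ) (2 * m - 4), ← Real.rpow_mul hN0.le, hcast1]
  refine ⟨hg0, hga1, hΛne, ?_⟩
  have hK : 0 < κ' ^ (1 + ε) := Real.rpow_pos_of_pos hκ'0 _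
  have hP : 0 < (N:ℝ) ^ ((2 * (m:ℝ) - 4) * (1 + ε)) := Real.rpow_pos_of_pos hN0 _
  have hpow : (N:ℝ) ^ T * N = (N:ℝ) ^ δ * (N:ℝ) ^ ((2 * (m:ℝ) - 4) * (1 + ε)) := by
    rw [← Real.rpow_add hN0, hδ, sub_add_cancel, ← pow_succ, ← Real.rpow_natCast]
    congr 1
    push_cast
    rw [hcast2]
    ring
  calc |∏ a ∈ E, ((f a : ℝ) ^ (g a)) - 1| ≤ 2 * L := hΛup
    _ ≤ 2 * (2 * c / (N:ℝ) ^ T) := by linarith
    _ < C * ((N:ℝ) / 2) / (κ' ^ (1 + ε) * (N:ℝ) ^ ((2 * (m:ℝ) - 4) * (1 + ε))) := by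
        rw [lt_div_iff₀ (by positivity)]
        have h1 : 2 * (2 * c / (N:ℝ) ^ T) *
            (κ' ^ (1 + ε) * (N:ℝ) ^ ((2 * (m:ℝ) - 4) * (1 + ε))) =
            (4 * c * κ' ^ (1 + ε)) * ((N:ℝ) ^ ((2 * (m:ℝ) - 4) * (1 + ε)) / (N:ℝ) ^ T) := by
          ring
        have h2 : (N:ℝ) ^ ((2 * (m:ℝ) - 4) * (1 + ε)) / (N:ℝ) ^ T = N / (N:ℝ) ^ δ := by
          rw [div_eq_div_iff hNT.ne' (Real.rpow_pos_of_pos hN0 _).ne', mul_comm, ← hpow]
          ring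
        rw [h1, h2]
        have hD : 0 < (N:ℝ) ^ δ := Real.rpow_pos_of_pos hN0 _
        rw [div_lt_iff₀ hC] at hN3
        rw [← mul_div_assoc, div_lt_iff₀ hD]
        nlinarith
    _ ≤ C * |((g a1 : ℤ) : ℝ)| /
          ((∏ a ∈ E, |((g a : ℤ) : ℝ)|) * ∏ a ∈ E, |((f a : ℤ) : ℝ)|) ^ (1 + ε) := by
        apply div_le_div₀ (by positivity) _ (Real.rpow_pos_of_pos hprod0 _) hXε
        exact mul_le_mul_of_nonneg_left hga1 hC.le

end Pool.Agent.Lib.MP_4eb8d9_nt.H6
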