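import Mathlib
import Pool.Agent.Lib.MP_4eb8d9_nt.H6.Viol

/-!
# Infinitely many `N` for which the numbers `N - e`, `e ∈ E`, are multiplicatively independent
-/

set_option autoImplicit false

namespace Pool.Agent.Lib.MP_4eb8d9_nt.H6

open Filter Topology Finset
open Pool.Agent.Lib.MP_4eb8d9_nt.Dis

lemma padicValRat_prod_zpow {ι : Type} (p : ℕ) [Fact p.Prime] (s : Finset ι) (f : ι → ℚ)
    (k : ι → ℤ) (hf : ∀ i ∈ s, f i ≠ 0) :
    padicValRat p (∏ i ∈ s, f i ^ k i) = ∑ i ∈ s, k i * padicValRat p (f i) := by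
  classical
  induction s using Finset.induction_on with
  | empty => simp
  | insert a s ha ih =>
    rw [Finset.prod_insert ha, Finset.sum_insert ha, padicValRat.mul, padicValRat.zpow,
      ih fun i hi => hf i (Finset.mem_insert_of_mem hi)]
    · exact zpow_ne_zero _ (hf a (Finset.mem_insert_self a s))
    · exact Finset.prod_ne_zero_iff.2 fun i hi =>
        zpow_ne_zero _ (hf i (Finset.mem_insert_of_mem hi))

/-- There are a modulus `M` and a residue `r` such that for `N ≡ r (mod M)` the numbers `N - e`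
are multiplicatively independent. -/
theorem indep (E : Finset ℤ) : ∃ r M : ℕ, 0 < M ∧ ∀ t : ℕ,
    (∀ e ∈ E, (((r + M * t : ℕ) : ℤ) - e) ≠ 0) → ∀ k : ℤ → ℤ,
      ∏ e ∈ E, (((((r + M * t : ℕ) : ℤ) - e : ℤ) : ℚ) ^ (k e)) = 1 → ∀ e ∈ E, k e = 0 := by
  classical
  set A : ℕ := E.sup Int.natAbs with hA
  have hAe : ∀ e ∈ E, e.natAbs ≤ A := fun e he => Finset.le_sup (f := Int.natAbs) he
  let p : ℤ → ℕ := fun e => Nat.nth Nat.Prime (Encodable.encode e + 2 * A + 1)
  have hp : ∀ e, (p e).Prime := fun e => Nat.prime_nth_prime _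
  have hmono : StrictMono (Nat.nth Nat.Prime) := Nat.nth_strictMono Nat.infinite_setOfPred_prime
  have hpinj : Function.Injective p := by
    intro e e' h
    have h1 := hmono.injective h
    have h2 : Encodable.encode e = Encodable.encode e' := by omega
    exact Encodable.encode_injective h2
  have hpbig : ∀ e, 2 * A + 1 ≤ p e := by
    intro e
    have := hmono.le_apply (x := Encodable.encode e + 2 * A + 1)
    have h3 : p e = Nat.nth Nat.Prime (Encodable.encode e + 2 * A + 1) := rfl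
    omega
  have hcop : Set.Pairwise (E : Set ℤ) (Function.onFun Nat.Coprime p) := by
    intro e _ e' _ hne
    exact (Nat.coprime_primes (hp e) (hp e')).2 fun h => hne (hpinj h)
  obtain ⟨r, hr⟩ := Nat.chineseRemainderOfFinset (fun e : ℤ => (e % (p e : ℤ)).toNat) p E
    (fun e _ => (hp e).ne_zero) hcop
  refine ⟨r, ∏ e ∈ E, p e, Finset.prod_pos fun e _ => (hp e).pos, ?_⟩
  intro t hne k hk e he
  have hpe : (0:ℤ) < (p e : ℤ) := by exact_mod_cast (hp e).pos
  have hdvd : ∀ e' ∈ E, (p e' : ℤ) ∣ (((r + (∏ e ∈ E, p e) * t : ℕ) : ℤ) - e') := by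
    intro e' he'
    have hpe' : (0:ℤ) < (p e' : ℤ) := by exact_mod_cast (hp e').pos
    have h1 : ((r : ℕ) : ℤ) ≡ (((e' % (p e' : ℤ)).toNat : ℕ) : ℤ) [ZMOD (p e' : ℤ)] :=
      (Int.natCast_modEq_iff).2 (hr e' he')
    rw [Int.toNat_of_nonneg (Int.emod_nonneg _ hpe'.ne')] at h1
    have h2 : ((r : ℕ) : ℤ) ≡ e' [ZMOD (p e' : ℤ)] := h1.trans (Int.mod_modEq _ _)
    have h3 : (p e' : ℤ) ∣ ((∏ e ∈ E, p e : ℕ) : ℤ) := by
      exact_mod_cast Finset.dvd_prod_of_mem p he'
    have h4 := (Int.modEq_iff_dvd.1 h2.symm)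
    have h5 : (((r + (∏ e ∈ E, p e) * t : ℕ) : ℤ) - e')
        = (((r : ℕ) : ℤ) - e') + ((∏ e ∈ E, p e : ℕ) : ℤ) * t := by
      push_cast; ring
    rw [h5]
    exact dvd_add h4 (Dvd.dvd.mul_right h3 _)
  have hndvd : ∀ e' ∈ E, e' ≠ e → ¬ (p e : ℤ) ∣ (((r + (∏ e ∈ E, p e) * t : ℕ) : ℤ) - e') := by
    intro e' he' hne' h
    have h1 := dvd_sub (hdvd e he) h
    have h2 : (((r + (∏ e ∈ E, p e) * t : ℕ) : ℤ) - e) -
        (((r + (∏ e ∈ E, p e) * t : ℕ) : ℤ) - e') = e' - e := by ring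
    rw [h2] at h1
    have h3 := Int.le_of_dvd (by
      have : e' - e ≠ 0 := sub_ne_zero.2 hne'
      exact abs_pos.2 this) ((dvd_abs _ _).2 h1)
    have h4 := hAe e he
    have h5 := hAe e' he'
    have h6 := hpbig e
    have h7 : |e' - e| ≤ 2 * (A : ℤ) := by
      have h8 : |e'| ≤ (A : ℤ) := by rw [Int.abs_eq_natAbs]; exact_mod_cast h5
      have h9 : |e| ≤ (A : ℤ) := by rw [Int.abs_eq_natAbs]; exact_mod_cast h4
      calc |e' - e| ≤ |e'| + |e| := abs_sub _ _
        _ ≤ 2 * (A : ℤ) := by linarith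
    have h8 : (2 * (A:ℤ) + 1) ≤ (p e : ℤ) := by exact_mod_cast h6
    linarith
  have hfact : Fact (p e).Prime := ⟨hp e⟩
  have h1 := padicValRat_prod_zpow (p e) E
    (fun e' => ((((r + (∏ e ∈ E, p e) * t : ℕ) : ℤ) - e' : ℤ) : ℚ)) k
    (fun e' he' => by exact_mod_cast hne e' he')
  rw [hk, padicValRat.one, Finset.sum_eq_single_of_mem e he] at h1
  · rcases mul_eq_zero.1 h1.symm with h2 | h2
    · exact h2
    · exfalso
      rw [padicValRat.of_int] at h2
      have h3 : padicValInt (p e) (((r + (∏ e ∈ E, p e) * t : ℕ) : ℤ) - e) = 0 := by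
        exact_mod_cast h2
      rw [padicValInt.eq_zero_iff] at h3
      rcases h3 with h3 | h3 | h3
      · exact (hp e).ne_one h3
      · exact hne e he h3
      · exact h3 (hdvd e he)
  · intro e' he' hne'
    rw [padicValRat.of_int, padicValInt.eq_zero_of_not_dvd (hndvd e' he' hne')]
    simp

end Pool.Agent.Lib.MP_4eb8d9_nt.H6
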